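import Mathlib
import Pool.Agent.W423.NX.FinP

/-!
# The weak monodromy conjecture for products of powers of very general polynomials

Let `F ⊆ ℂ` be a field and `f = ∏_k g_k ^ (m_k)`, `g_k = ∑_{g j = k} a_j x ^ (v j) + h_k`, where all
the `a_j` together are algebraically independent over `F` and `h_k ∈ F[x_1, …, x_N]` is any
polynomial with exponents in the convex hull of the `v j`, `g j = k` (so only the coefficients at
the vertices of the Newton polytopes of the `g_k` have to be generic). The polynomial `f` is
neither reduced nor Newton nondegenerate in general.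

Then `b_f(s) D(s) Z(s)` is a polynomial, where `Z` is the global topological zeta function of `f`
and `D` is a product of factors `m_k s + i`: every pole of `Z` which is not of the form
`- i / m_k` is a root of `b_f`, of at least the same order. The numbers `exp (- 2 π i / m_k)` are
eigenvalues of the monodromy at the general points of `g_k = 0`.
-/

set_option autoImplicit false

namespace Pool.Agent.Results.MP_a2a574_ag.ProductsOfPowers

open Pool.Agent.W423.MG Pool.Agent.W425.SM Pool.Agent.W423.NX

/-- **The monodromy conjecture, with multiplicities, for `f = ∏_k g_k ^ (m_k)`, the `g_k` with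
generic coefficients at the vertices of their Newton polytopes (global topological zeta function;
after a diagonal change of variables `x_l ↦ t_l x_l` and multiplication by a constant).**

`IsBFunction f b` says that `b(s) f ^ s = P(s) f ^ (s + 1)` for a differential operator `P(s)`.

`R` is any smooth fan with support the positive orthant on which, for each `k`, the ideal
generated by the monomials `x ^ (v j)`, `g j = k`, becomes principal, and `topZetaP False g v θ m R`
is the global topological zeta function of `f`, computed on the embedded resolution `X_R`. The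
heights `θ` are only used to compute the mixed volumes in the Euler characteristics of the
strata. -/
theorem result {r N P : ℕ} {F : Type} [Field F] [Algebra F ℂ]
    (g : Fin r → Fin (P+1)) (v : Fin r → Fin N → ℕ) (a : Fin r → ℂ)
    (h : Fin (P+1) → MvPolynomial (Fin N) F) (m : Fin (P+1) → ℕ) (hm : ∀ k, 1 ≤ m k)
    (hg : ∀ k, ∃ j, g j = k)
    (ha : AlgebraicIndependent F a) (hh : ∀ k, ∀ w ∈ (h k).support, HullG False g v k w)
    (f : MvPolynomial (Fin N) ℂ) (c : ℂ) (t : Fin N → ℂ) (hc : c ≠ 0) (ht : ∀ l, t l ≠ 0)
    (hf : MvPolynomial.C c * scal t f = ∏ k, polyH g v a h k ^ m k)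
    (θ : Fin r → ℝ) (hθ : LinearIndependent ℚ θ) (R : SmoothFan N) (hR : PrincipalG g v R)
    (b : Polynomial ℂ) (hb : Pool.Agent.H628R4.TP.IsBFunction f b) :
    ∃ (n : ℕ) (Z : Polynomial ℂ),
      algebraMap (Polynomial ℂ) (RatFunc ℂ) (b *
        (∏ k : Fin (P+1), ∏ i ∈ Finset.range n,
          (Polynomial.C ((m k : ℕ) : ℂ) * Polynomial.X + Polynomial.C (i : ℂ))) ^ 3) *
        topZetaP False g v θ m R = algebraMap (Polynomial ℂ) (RatFunc ℂ) Z :=
  prodGlobal g v a h m hm hg ha hh f c t hc ht hf θ hθ R hR b hb

end Pool.Agent.Results.MP_a2a574_ag.ProductsOfPowers
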